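import Pool.Agent.N20.DI.Stm2

/-!
# Radical chains: definitions and statements
-/

set_option autoImplicit false

open scoped Classical BigOperators

noncomputable section

namespace Pool.Agent.N20.DI

open Pool.Agent.Y63.NV
open Pool.Agent.Y63.KR
open Pool.Agent.Y63.AWC (IsIrreducibleCharacter)
open Pool.Agent.R674.Ce (chs wt Sp)
open Pool.Agent.R674.Tw (Fixes GCh NG NE NEbar ng_le IndB invSum)

section

variable {E : Type} [Group E]

/-- `P = O_p(N)`: `P` is the largest normal `p`-subgroup of `N`. -/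
def IsOp (p : ℕ) (N P : Subgroup E) : Prop :=
  P ≤ N ∧ IsPGroup p P ∧ (∀ x ∈ N, conjSub x P = P) ∧
    ∀ Q : Subgroup E, Q ≤ N → IsPGroup p Q → (∀ x ∈ N, conjSub x Q = Q) → Q ≤ P

/-- The chain `σ` of `p`-subgroups of `L` containing `R` properly is radical in `L`:
`O_p(N_L(σ_P)) = P` for all members `P` of `σ`, where `σ_P` is the part of `σ` up to `P`. -/
def RadC (p : ℕ) (L R : Subgroup E) : Set (Set (Subgroup E)) :=
  {σ | σ ⊆ {P : Subgroup E | IsPGroup p P ∧ R < P ∧ P ≤ L} ∧ IsChain (· ≤ ·) σ ∧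
    ∀ P ∈ σ, IsOp p (L ⊓ chainStabilizer {Q | Q ∈ σ ∧ Q ≤ P}) P}

/-- The radical `p`-chains `1 < P_1 < ... < P_n` of `G` (given as the sets `{P_1, ..., P_n}`). -/
abbrev RCh (p : ℕ) (G : Subgroup E) : Type := {σ : Set (Subgroup E) // σ ∈ RadC p G ⊥}

/-- conjugacy of radical chains under `G` -/
def rchSetoid (p : ℕ) (G : Subgroup E) : Setoid (RCh p G) where
  r σ τ := ∃ g ∈ G, τ.1 = conjSub g '' σ.1
  iseqv := {
    refl := fun σ => ⟨1, G.one_mem, by
      have : (conjSub (1 : E)) = id := funext conjSub_one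
      rw [this, Set.image_id]⟩
    symm := by
      rintro σ τ ⟨g, hg, h⟩
      refine ⟨g⁻¹, G.inv_mem hg, ?_⟩
      rw [h, ← Set.image_comp]
      have : conjSub g⁻¹ ∘ conjSub g = id := funext fun P => by
        rw [Function.comp_apply, ← conjSub_mul, inv_mul_cancel, conjSub_one, id]
      rw [this, Set.image_id]
    trans := by
      rintro σ τ υ ⟨g, hg, h⟩ ⟨k, hk, h'⟩
      refine ⟨k * g, G.mul_mem hk hg, ?_⟩
      rw [h', h, ← Set.image_comp]
      congr 1
      exact (funext fun P => conjSub_mul k g P).symm }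

/-- The alternating sum `∑_C (-1)^|C| f(C)` over representatives `C` of the `G`-conjugacy classes of
radical `p`-chains of `G`. -/
def radSum (p : ℕ) (G : Subgroup E) (f : Set (Subgroup E) → ℤ) : ℤ :=
  ∑ᶠ c : Quotient (rchSetoid p G), (-1) ^ c.out.1.ncard * f c.out.1

end

/-- RAD: all chains and radical chains -/
def S_RAD : Prop := ∀ (p : ℕ) [Fact p.Prime] (E : Type) [Group E] [Finite E] (J L R : Subgroup E),
    IsPGroup p R → R ≤ L → L ≤ J → (∀ x ∈ J, conjSub x L = L) → (∀ x ∈ J, conjSub x R = R) →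
    ∀ f : Subgroup E → ℤ,
      chs {P : Subgroup E | IsPGroup p P ∧ R < P ∧ P ≤ L} (wt J f) =
        ∑ᶠ σ : {σ : Set (Subgroup E) // σ ∈ RadC p L R}, wt J f σ.1

/-- RADS: sums over classes of chains and of radical chains -/
def S_RADS : Prop := ∀ (p : ℕ) [Fact p.Prime] (E : Type) [Group E] [Finite E] (G : Subgroup E)
    [G.Normal] (f : Set (Subgroup E) → ℤ), (∀ g ∈ G, ∀ σ, f (conjSub g '' σ) = f σ) →
    (∀ σ τ : Set (Subgroup E), chainStabilizer σ = chainStabilizer τ → f σ = f τ) →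
    invSum p G f = radSum p G f

/-- KST: the numbers depend only on the stabiliser -/
def S_KST : Prop := ∀ (p : ℕ) [Fact p.Prime] (F : Type) [Field F]
    (red : integralClosure ℤ ℂ →+* F) (E : Type) [Group E] [Finite E] (G : Subgroup E) [G.Normal]
    (B : (G → F) → F) (d : ℕ) (U : Subgroup (E ⧸ G)) (σ τ : Set (Subgroup E)),
    chainStabilizer σ = chainStabilizer τ → kdU p red G B d U σ = kdU p red G B d U τ ∧
      kdGe p red G B d U σ = kdGe p red G B d U τ

end Pool.Agent.N20.DI
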