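import Pool.Agent.N20.DI.Def

/-!
# Dade's invariant conjecture for cyclic quotients: statements of the parts
-/

set_option autoImplicit false

open scoped Classical BigOperators

noncomputable section

namespace Pool.Agent.N20.DI

open Pool.Agent.Y63.NV
open Pool.Agent.Y63.KR
open Pool.Agent.Y63.AWC (IsIrreducibleCharacter)
open Pool.Agent.R674.Tw (Fixes)
open Pool.Agent.R674.Ce (chs wt Sp)
open Pool.Agent.Helper884.IC (B Irr mem_Irr IsClass IsIrrChar)

/-- CL1: Mackey's formula for the restrictions of the irreducible characters -/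
def S_CL1 : Prop := ∀ (M : Type) [Group M] [Fintype M] (N : Subgroup M) [N.Normal] [Fintype N]
    (ψ φ : N → ℂ), IsIrrChar ψ → IsIrrChar φ →
    (Nat.card N : ℂ) * ∑ χ ∈ Irr M, B (fun n : N => χ n) ψ * B (fun n : N => χ n) φ =
      (Nat.card {m : M // ∀ n n' : N, (n' : M) = m * n * m⁻¹ → ψ n' = φ n} : ℂ)

/-- CL2: the number of characters of a cyclic extension -/
def S_CL2 : Prop := ∀ (M : Type) [Group M] [Fintype M] (N : Subgroup M) [N.Normal] [Fintype N],
    IsCyclic (M ⧸ N) →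
    ∑ ψ ∈ Irr N, (sN N ψ) ^ 2 = Nat.card M * Nat.card N * (Irr M).card

/-- CL3: central characters and restriction -/
def S_CL3 : Prop := ∀ (F : Type) [Field F] (red : integralClosure ℤ ℂ →+* F) (M : Type) [Group M]
    [Fintype M] (N : Subgroup M) [N.Normal] [Fintype N] (z : M → F), IsClassFun z →
    (∀ x, x ∉ N → z x = 0) → ∀ (χ : M → ℂ) (ψ : N → ℂ), IsIrreducibleCharacter χ →
    IsIrreducibleCharacter ψ → ∀ t : ℕ, χ 1 = t * ψ 1 →
    (∀ f : M → ℂ, (∀ g x : M, f (g * x * g⁻¹) = f x) →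
      ∑ n : N, f n * χ n = t * ∑ n : N, f n * ψ n) →
    centralValue red χ z = centralValue red ψ (fun n : N => z n)

/-- CLIFF: characters of given defect of a cyclic extension -/
def S_CLIFF : Prop := ∀ (p : ℕ) (F : Type) [Field F] (red : integralClosure ℤ ℂ →+* F) (M : Type)
    [Group M] [Finite M] (N : Subgroup M) [N.Normal], IsCyclic (M ⧸ N) → ∀ (z : M → F),
    IsClassFun z → (∀ x, x ∉ N → z x = 0) → ∀ (c : F) (D : ℕ),
    Nat.card M * Nat.card N * Kd p red D z c =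
      ∑ᶠ ψ : {ψ : N → ℂ // IsIrreducibleCharacter ψ ∧ Dg p D (sN N ψ) ψ ∧
        centralValue red ψ (fun n : N => z n) = c}, (sN N ψ.1) ^ 2

/-- COMB: the combinatorial part of the induction -/
def S_COMB : Prop := ∀ (Ω A : Type) [Finite Ω] [Group A] [Finite A] (p : ℕ) [Fact p.Prime]
    (w : Ω → ℤ) (d : Ω → ℕ) (T : Ω → Subgroup A) (U₀ : Subgroup A), IsCyclic U₀ →
    (∀ U : Subgroup A, U ≤ U₀ → ∀ D : ℕ, (Nat.card U).factorization p + 1 ≤ D →
      ∑ᶠ ω : Ω, (if d ω + (Nat.card ↥(T ω ⊓ U)).factorization p = D then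
        w ω * (Nat.card ↥(T ω ⊓ U) : ℤ) ^ 2 else 0) = 0) → ∀ e : ℕ, 1 ≤ e →
    ∑ᶠ ω : Ω, (if d ω = e ∧ U₀ ≤ T ω then w ω else 0) = 0

/-- BL: from blocks to class functions -/
def S_BL : Prop := ∀ (p : ℕ) [Fact p.Prime] (F : Type) [Field F] [IsAlgClosed F] [CharP F p]
    (red : integralClosure ℤ ℂ →+* F) (H : Type) [Group H] [Finite H], OrdC p red H →
    ∀ (z : H → F), IsClassFun z → ∀ (c : F) (D : ℕ), 1 ≤ D →
    alternatingSum p H (fun J => (Kd p red D (fun x : J => z x) c : ℤ)) = 0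

/-- LIN: characters over a central subgroup meeting the commutator subgroup trivially -/
def S_LIN : Prop := ∀ (p : ℕ) (F : Type) [Field F] (red : integralClosure ℤ ℂ →+* F)
    (J K : Type) [Group J] [Group K] [Finite J] [Finite K] (π : J →* K),
    Function.Surjective π → π.ker ≤ Subgroup.center J → ∀ (G : Subgroup J),
    G ⊓ π.ker = ⊥ → (∀ a b : J, a * b * a⁻¹ * b⁻¹ ∈ G) → ∀ (m : ℕ), p.Prime →
    Nat.card π.ker = p ^ m → ∀ (z : J → F), IsClassFun z → (∀ x, x ∉ G → z x = 0) →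
    ∀ (c : F) (D : ℕ), Kd p red (D + m) z c =
      p ^ m * Kd p red D (fun y : K => ∑ᶠ x : J, if π x = y then z x else 0) c

/-- CH: chains above a normal subgroup and chains of the quotient -/
def S_CH : Prop := ∀ (p : ℕ) (Γ : Type) [Group Γ] [Finite Γ] (Q : Type) [Group Q] [Finite Q]
    (K R : Subgroup Γ), R ≤ K → IsPGroup p R → ∀ (π : K →* Q), Function.Surjective π →
    π.ker = R.subgroupOf K → ∀ (f : Subgroup Γ → ℤ),
    chs {P : Subgroup Γ | IsPGroup p P ∧ R < P ∧ P ≤ K} (wt K f) =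
      ∑ᶠ σ : {σ : Set (Subgroup Q) // IsPChain p σ},
        (-1) ^ σ.1.ncard * f (((chainStabilizer σ.1).comap π).map K.subtype)

/-- DEC: the chains of `p`-subgroups of `K` and those of the normal subgroup `G` -/
def S_DEC : Prop := ∀ (p : ℕ) [Fact p.Prime] (Γ : Type) [Group Γ] [Finite Γ] (G : Subgroup Γ)
    [G.Normal] (K : Subgroup Γ), G ≤ K → (∀ a ∈ K, ∀ b ∈ K, a * b * a⁻¹ * b⁻¹ ∈ G) →
    ∀ (f : Subgroup Γ → ℤ),
    chs (Sp p K) (wt K f) = chs (Sp p G) (wt K f) -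
      ∑ᶠ R : Subgroup Γ, if IsPGroup p R ∧ R ≠ ⊥ ∧ R ≤ K ∧ G ⊓ R = ⊥ then
        chs {P : Subgroup Γ | IsPGroup p P ∧ R < P ∧ P ≤ K ⊓ Subgroup.normalizer (R : Set Γ)}
          (wt (K ⊓ Subgroup.normalizer (R : Set Γ)) f) else 0

end Pool.Agent.N20.DI
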