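import Pool.Agent.N20.DI.Stm
import Pool.Agent.N20.KB.Mult
import Pool.Agent.Q90.WR.Bcj

/-!
# Dade's invariant conjecture for cyclic quotients: the main relation
-/

set_option autoImplicit false
set_option linter.unusedSectionVars false

open scoped Classical BigOperators

noncomputable section

namespace Pool.Agent.N20.DI

open Pool.Agent.Y63.NV
open Pool.Agent.Y63.KR
open Pool.Agent.Y63.AWC (IsIrreducibleCharacter)
open Pool.Agent.R674.Ce (chs wt Sp)
open Pool.Agent.N20.KB (irr_comp')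

section iso

variable {F : Type} [Field F] (red : integralClosure ℤ ℂ →+* F) {J K : Type} [Group J] [Group K]
  [Finite J] [Finite K] {p : ℕ}

theorem dg_comp (e : J ≃* K) (D s : ℕ) (χ : K → ℂ) :
    Dg p D s (fun x => χ (e x)) ↔ Dg p D s χ := by
  unfold Dg
  have h : (fun x => χ (e x)) 1 = χ 1 := by
    change χ (e 1) = χ 1
    rw [map_one]
  rw [h]

theorem kd_iso (e : J ≃* K) {f : K → F} (hf : IsClassFun f) (c : F) (D : ℕ) :
    Kd p red D (fun x => f (e x)) c = Kd p red D f c := by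
  have hc : Nat.card J = Nat.card K := Nat.card_congr e.toEquiv
  unfold Kd HasDef
  refine Nat.card_congr
    { toFun := fun χ => ⟨fun x => χ.1 (e.symm x), irr_comp' e.symm χ.2.1, ?_, ?_⟩
      invFun := fun χ => ⟨fun x => χ.1 (e x), irr_comp' e χ.2.1, ?_, ?_⟩
      left_inv := fun χ => Subtype.ext (by funext x; simp)
      right_inv := fun χ => Subtype.ext (by funext x; simp) }
  · rw [dg_comp e.symm, ← hc]
    exact χ.2.2.1
  · have h1 := Pool.Agent.Y286.NV.centralValue_comp red e (fun x => χ.1 (e.symm x))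
      (Pool.Agent.Y286.NV.irr_class (irr_comp' e.symm χ.2.1)) f hf
    have h2 : (fun x => χ.1 (e.symm (e x))) = χ.1 := by
      funext x
      rw [e.symm_apply_apply]
    rw [h2, χ.2.2.2] at h1
    exact h1.symm
  · rw [dg_comp e, hc]
    exact χ.2.2.1
  · rw [Pool.Agent.Y286.NV.centralValue_comp red e χ.1
      (Pool.Agent.Y286.NV.irr_class χ.2.1) f hf]
    exact χ.2.2.2

end iso

variable {p : ℕ} [Fact p.Prime] {F : Type} [Field F] [IsAlgClosed F] [CharP F p]
  (red : integralClosure ℤ ℂ →+* F)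

/-- the weighted sum over all chains for a group satisfying the ordinary conjecture -/
theorem bl_sum (hBL : S_BL) {Q : Type} [Group Q] [Finite Q] (hQ : OrdC p red Q) {z : Q → F}
    (hz : IsClassFun z) (c : F) {D : ℕ} (hD : 1 ≤ D) :
    ∑ᶠ σ : {σ : Set (Subgroup Q) // IsPChain p σ}, (-1) ^ σ.1.ncard *
      ((Nat.card (chainStabilizer σ.1) : ℤ) *
        Kd p red D (fun x : chainStabilizer σ.1 => z x) c) = 0 := by
  have _i : Fintype {σ : Set (Subgroup Q) // IsPChain p σ} := Fintype.ofFinite _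
  have h := Pool.Agent.Q90.WR.card_mul_alternatingSum' (p := p)
    (fun J : Subgroup Q => (Kd p red D (fun x : J => z x) c : ℤ)) (by
      intro g H
      let e : H ≃* conjSub g H := H.equivMapOfInjective _ (MulAut.conj g).injective
      have h := kd_iso (p := p) red e (f := fun x : conjSub g H => z x) (fun a x => hz a x) c D
      have h2 : (fun x : H => z (e x)) = fun x : H => z x := by
        funext x
        exact hz g x
      change ((Kd p red D (fun x : conjSub g H => z x) c : ℕ) : ℤ) =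
        (Kd p red D (fun x : H => z x) c : ℕ)
      rw [← h, h2])
  rw [hBL p F red Q hQ z hz c D hD, mul_zero] at h
  have e : _i = Pool.Agent.Q90.WR.instFintypeCh p Q := Subsingleton.elim _ _
  rw [finsum_eq_sum_of_fintype, e]
  exact h.symm

/-- the weight -/
def fw (p : ℕ) {F : Type} [Field F] (red : integralClosure ℤ ℂ →+* F) {Γ : Type} [Group Γ] (D : ℕ)
    (z : Γ → F) (c : F) (J : Subgroup Γ) : ℤ :=
  (Nat.card J : ℤ) * Kd p red D (fun x : J => z x) c

section one

variable {Γ : Type} [Group Γ] [Finite Γ] {G : Subgroup Γ} [G.Normal] {N R : Subgroup Γ}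
  {Q : Type} [Group Q] [Finite Q]

/-- the push-forward of a function -/
def pf (z : Γ → F) (π : N →* Q) : Q → F := fun y => ∑ᶠ x : N, if π x = y then z x else 0

omit [Fact p.Prime] [IsAlgClosed F] [CharP F p] [Finite Q] in
theorem pf_class {z : Γ → F} (hz : ∀ g ∈ N, ∀ x, z (g * x * g⁻¹) = z x) (π : N →* Q)
    (hπ : Function.Surjective π) : IsClassFun (pf z π) := by
  intro g y
  obtain ⟨a, rfl⟩ := hπ g
  have _i : Fintype N := Fintype.ofFinite N
  unfold pf
  rw [finsum_eq_sum_of_fintype, finsum_eq_sum_of_fintype]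
  symm
  refine Fintype.sum_equiv (MulAut.conj a).toEquiv _ _ fun x => ?_
  change (if π x = y then z x else 0) =
    if π (a * x * a⁻¹) = π a * y * (π a)⁻¹ then z ((a * x * a⁻¹ : N) : Γ) else 0
  have h1 : π (a * x * a⁻¹) = π a * y * (π a)⁻¹ ↔ π x = y := by
    rw [map_mul, map_mul, map_inv]
    constructor
    · intro h
      exact mul_left_cancel (mul_right_cancel h)
    · intro h
      rw [h]
  have h2 : z ((a * x * a⁻¹ : N) : Γ) = z x := hz a a.2 x
  rw [h2]
  by_cases h : π x = y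
  · rw [if_pos h, if_pos (h1.2 h)]
  · rw [if_neg h, if_neg (fun h' => h (h1.1 h'))]

omit [Fact p.Prime] [IsAlgClosed F] [CharP F p] [Finite Γ] [Finite Q] in
theorem mem_up (π : N →* Q) (S : Subgroup Q) (x : Γ) :
    x ∈ (S.comap π).map N.subtype ↔ ∃ h : x ∈ N, π ⟨x, h⟩ ∈ S := by
  rw [Subgroup.mem_map]
  constructor
  · rintro ⟨y, hy, rfl⟩
    exact ⟨y.2, hy⟩
  · rintro ⟨h, h2⟩
    exact ⟨⟨x, h⟩, h2, rfl⟩

/-- the projection -/
def pr (π : N →* Q) (S : Subgroup Q) : ↥((S.comap π).map N.subtype) →* S where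
  toFun x := ⟨π ⟨x, ((mem_up π S x).1 x.2).1⟩, ((mem_up π S x).1 x.2).2⟩
  map_one' := Subtype.ext (by
    change π 1 = 1
    exact map_one π)
  map_mul' a b := Subtype.ext (by
    change π ⟨a * b, _⟩ = π ⟨a, _⟩ * π ⟨b, _⟩
    rw [← map_mul]
    rfl)

omit [Fact p.Prime] [IsAlgClosed F] [CharP F p] [Finite Γ] [Finite Q] in
theorem pr_surj (π : N →* Q) (hπ : Function.Surjective π) (S : Subgroup Q) :
    Function.Surjective (pr π S) := by
  rintro ⟨y, hy⟩
  obtain ⟨x, rfl⟩ := hπ y
  exact ⟨⟨x, (mem_up π S x).2 ⟨x.2, hy⟩⟩, rfl⟩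

omit [Fact p.Prime] [IsAlgClosed F] [CharP F p] [Finite Γ] [Finite Q] in
theorem pr_ker (π : N →* Q) (hk : π.ker = R.subgroupOf N) (S : Subgroup Q)
    (x : ↥((S.comap π).map N.subtype)) : x ∈ (pr π S).ker ↔ (x : Γ) ∈ R := by
  rw [MonoidHom.mem_ker]
  have h1 : pr π S x = 1 ↔ π ⟨x, ((mem_up π S x).1 x.2).1⟩ = 1 := by
    constructor
    · intro h
      exact congrArg Subtype.val h
    · intro h
      exact Subtype.ext h
  rw [h1, ← MonoidHom.mem_ker, hk]
  exact Iff.rfl

/-- the weights of the chains above `R` -/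
theorem fw_up (hLIN : S_LIN) (hRN : R ≤ N) (hGR : G ⊓ R = ⊥)
    (hcom : ∀ a ∈ N, ∀ b ∈ N, a * b * a⁻¹ * b⁻¹ ∈ G)
    (hn : N ≤ Subgroup.normalizer (R : Set Γ)) {m : ℕ} (hm : Nat.card R = p ^ m) (π : N →* Q)
    (hπ : Function.Surjective π) (hk : π.ker = R.subgroupOf N) {z : Γ → F}
    (hz : ∀ g ∈ N, ∀ x, z (g * x * g⁻¹) = z x) (hz0 : ∀ x, x ∉ G → z x = 0) (c : F) (D : ℕ)
    (S : Subgroup Q) :
    fw p red (D + m) z c ((S.comap π).map N.subtype) =
      (p : ℤ) ^ m * (p : ℤ) ^ m *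
        ((Nat.card S : ℤ) * Kd p red D (fun x : S => pf z π x) c) := by
  set J : Subgroup Γ := (S.comap π).map N.subtype with hJ
  have hJN : J ≤ N := by
    intro x hx
    exact ((mem_up π S x).1 hx).1
  have hRJ : R ≤ J := by
    intro x hx
    refine (mem_up π S x).2 ⟨hRN hx, ?_⟩
    have : (⟨x, hRN hx⟩ : N) ∈ π.ker := by
      rw [hk]
      exact hx
    rw [MonoidHom.mem_ker.1 this]
    exact S.one_mem
  have hker : Nat.card (pr π S).ker = p ^ m := by
    rw [← hm]
    refine Nat.card_congr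
      { toFun := fun x => ⟨x.1.1, (pr_ker π hk S x.1).1 x.2⟩
        invFun := fun x => ⟨⟨x.1, hRJ x.2⟩, (pr_ker π hk S ⟨x.1, hRJ x.2⟩).2 x.2⟩
        left_inv := fun x => rfl
        right_inv := fun x => rfl }
  have hcard : Nat.card J = p ^ m * Nat.card S := by
    have h1 := Subgroup.card_mul_index (pr π S).ker
    rw [Subgroup.index_ker, hker, MonoidHom.range_eq_top.2 (pr_surj π hπ S),
      Subgroup.card_top] at h1
    exact h1.symm
  have h1 := hLIN p F red J S (pr π S) (pr_surj π hπ S) (by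
    intro x hx
    rw [Subgroup.mem_center_iff]
    intro y
    have hxR : (x : Γ) ∈ R := (pr_ker π hk S x).1 hx
    have hyN : (y : Γ) ∈ N := hJN y.2
    have h2 : (y : Γ) * x * (y : Γ)⁻¹ * (x : Γ)⁻¹ ∈ G ⊓ R := by
      refine Subgroup.mem_inf.2 ⟨hcom _ hyN _ (hJN x.2), R.mul_mem ?_ (R.inv_mem hxR)⟩
      exact (Subgroup.mem_normalizer_iff.1 (hn hyN) x).1 hxR
    rw [hGR, Subgroup.mem_bot] at h2
    apply Subtype.ext
    change (y : Γ) * x = x * y
    calc (y : Γ) * x = (y : Γ) * x * (y : Γ)⁻¹ * (x : Γ)⁻¹ * x * y := by group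
      _ = x * y := by rw [h2, one_mul]) (G.subgroupOf J) (by
    rw [eq_bot_iff]
    intro x hx
    obtain ⟨hx1, hx2⟩ := Subgroup.mem_inf.1 hx
    have h3 : (x : Γ) ∈ G ⊓ R := Subgroup.mem_inf.2 ⟨hx1, (pr_ker π hk S x).1 hx2⟩
    rw [hGR, Subgroup.mem_bot] at h3
    exact Subgroup.mem_bot.2 (Subtype.ext h3)) (fun a b => hcom _ (hJN a.2) _ (hJN b.2)) m
    Fact.out hker (fun x : J => z x) (fun g x => hz g (hJN g.2) x) (fun x hx => hz0 x hx) c D
  have h2 : (fun y : S => ∑ᶠ x : J, @ite F (pr π S x = y) (Classical.propDecidable _) (z x) 0) =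
      fun x : S => pf z π x := by
    funext y
    unfold pf
    let ι : J → N := fun x => ⟨x.1, hJN x.2⟩
    have hι : Function.Injective ι := fun a b h => Subtype.ext (congrArg (fun t : N => (t : Γ)) h)
    have e1 : ∀ x : J, (@ite F (pr π S x = y) (Classical.propDecidable _) (z x) 0) =
        (fun t : N => if π t = (y : Q) then z t else 0) (ι x) := by
      intro x
      have e2 : pr π S x = y ↔ π (ι x) = (y : Q) := by
        constructor
        · intro h
          exact congrArg Subtype.val h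
        · intro h
          exact Subtype.ext h
      change (@ite F (pr π S x = y) (Classical.propDecidable _) (z x) 0) =
        if π (ι x) = (y : Q) then z x else 0
      by_cases h : pr π S x = y
      · rw [if_pos h, if_pos (e2.1 h)]
      · rw [if_neg h, if_neg (fun h' => h (e2.2 h'))]
    have e3 := finsum_mem_range (f := fun t : N => if π t = (y : Q) then z t else 0) hι
    refine (finsum_congr e1).trans (e3.symm.trans ?_)
    rw [finsum_mem_def]
    refine finsum_congr fun t => ?_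
    by_cases ht : t ∈ Set.range ι
    · rw [Set.indicator_of_mem ht]
    · rw [Set.indicator_of_notMem ht, if_neg]
      intro h
      apply ht
      refine ⟨⟨t.1, (mem_up π S t).2 ⟨t.2, ?_⟩⟩, rfl⟩
      change π t ∈ S
      rw [h]
      exact y.2
  rw [h2] at h1
  unfold fw
  rw [hcard, h1]
  push_cast
  ring

/-- **the chains above `R` contribute nothing** -/
theorem mr_R (hCH : S_CH) (hLIN : S_LIN) (hBL : S_BL) (hRp : IsPGroup p R) (hRN : R ≤ N)
    (hGR : G ⊓ R = ⊥) (hcom : ∀ a ∈ N, ∀ b ∈ N, a * b * a⁻¹ * b⁻¹ ∈ G)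
    (hn : N ≤ Subgroup.normalizer (R : Set Γ)) {m : ℕ} (hm : Nat.card R = p ^ m) (π : N →* Q)
    (hπ : Function.Surjective π) (hk : π.ker = R.subgroupOf N) (hQ : OrdC p red Q) {z : Γ → F}
    (hz : ∀ g ∈ N, ∀ x, z (g * x * g⁻¹) = z x) (hz0 : ∀ x, x ∉ G → z x = 0) (c : F) {D : ℕ}
    (hD : 1 ≤ D) :
    chs {P : Subgroup Γ | IsPGroup p P ∧ R < P ∧ P ≤ N} (wt N (fw p red (D + m) z c)) = 0 := by
  rw [hCH p Γ Q N R hRN hRp π hπ hk]
  have h1 : ∀ σ : {σ : Set (Subgroup Q) // IsPChain p σ}, (-1 : ℤ) ^ σ.1.ncard *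
      fw p red (D + m) z c (((chainStabilizer σ.1).comap π).map N.subtype) =
      (p : ℤ) ^ m * (p : ℤ) ^ m * ((-1) ^ σ.1.ncard *
      ((Nat.card (chainStabilizer σ.1) : ℤ) *
        Kd p red D (fun x : chainStabilizer σ.1 => pf z π x) c)) := by
    intro σ
    rw [fw_up red hLIN hRN hGR hcom hn hm π hπ hk hz hz0 c D]
    ring
  rw [finsum_congr h1, ← mul_finsum,
    bl_sum red hBL hQ (pf_class hz π hπ) c hD, mul_zero]

end one

end Pool.Agent.N20.DI
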