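import Pool.Agent.N20.DI.Main
import Pool.Agent.N20.DI.Stm3
import Pool.Agent.N833.DICL4
import Pool.Agent.N771.DICL2
import Pool.Agent.N232.DICOMB
import Pool.Agent.N55.DICH
import Pool.Agent.N157.DI.DICL1
import Pool.Agent.N565.DICL3
import Pool.Agent.N723.DIDEC
import Pool.Agent.N78.DIBL
import Pool.Agent.N323.DILIN
import Pool.Agent.N622.DIORD
import Pool.Agent.N655.DIDZ0
import Pool.Agent.N342.DIINV1
import Pool.Agent.N697.DIINV2
import Pool.Agent.N286.DIBLK
import Pool.Agent.N521.DIKDU
import Pool.Agent.N344.DI.RAD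
import Pool.Agent.N386.DIKST
import Pool.Agent.N199.DIRADS

/-!
# Dade's invariant conjecture for cyclic quotients: the final form, with radical chains
-/

set_option autoImplicit false
set_option linter.unusedSectionVars false

open scoped Classical BigOperators

noncomputable section

namespace Pool.Agent.N20.DI

open Pool.Agent.Y63.NV
open Pool.Agent.Y63.KR
open Pool.Agent.Y63.AWC (IsIrreducibleCharacter)
open Pool.Agent.R674.Tw (Fixes GCh NG NE NEbar ng_le ng_conj IndB invSum)

theorem parts : Parts where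
  cl := Pool.Agent.N833.DICL4.CL4 Pool.Agent.N157.DI.CL1 Pool.Agent.N771.DI.CL2
    Pool.Agent.N565.DI.CL3
  comb := Pool.Agent.N232.DICOMB.COMB
  ch := Pool.Agent.N55.DI.CH
  lin := Pool.Agent.N323.DI.LIN
  bl := Pool.Agent.N78.DIBL.BL
  dec := Pool.Agent.N723.DI.DEC
  inv1 := Pool.Agent.N342.DI1.INV1
  inv2 := Pool.Agent.N697.DIINV2.INV2
  dz0 := Pool.Agent.N655.DIDZ0.DZ0
  blk := Pool.Agent.N286.DI.BLK
  kdu := Pool.Agent.N521.DI.KDU
  ord := Pool.Agent.N622.DIORD.ORD

section

variable {F : Type} [Field F] {E : Type} [Group E]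

/-- Dade's invariant conjecture for the prime `p` and the normal subgroup `G` of `E`: if
`O_p(G) = 1`, then `∑_C (-1)^|C| k_C(B, d, U) = 0` for all blocks `B` of `G` without characters of
defect zero (that is, with nontrivial defect groups), all `d` and all `U ≤ E/G`; the sum is over
representatives of the `G`-conjugacy classes of radical `p`-chains of `G`. -/
def DadeInv (p : ℕ) (red : integralClosure ℤ ℂ →+* F) (G : Subgroup E) [G.Normal] : Prop :=
  (∀ P : Subgroup G, P.Normal → IsPGroup p P → P = ⊥) →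
  ∀ B : (G → F) → F, IsBlock B → numDzBlock p red B = 0 →
    ∀ (d : ℕ) (U : Subgroup (E ⧸ G)), radSum p G (fun σ => (kdU p red G B d U σ : ℤ)) = 0

/-- Dade's ordinary conjecture for the prime `p` and all groups isomorphic to `N_K(P)/P`, where `P`
is a `p`-subgroup of `K` with `G ∩ P = 1` (`P = 1` is allowed). The ordinary conjecture for a group
`Q` is the invariant conjecture for the normal subgroup `Q` of `Q`. -/
def DadeLoc (p : ℕ) (red : integralClosure ℤ ℂ →+* F) (G K : Subgroup E) : Prop :=
  ∀ P : Subgroup E, P ≤ K → IsPGroup p P → G ⊓ P = ⊥ → ∀ (Q : Type) [Group Q] [Finite Q]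
    (π : ↥(K ⊓ Subgroup.normalizer (P : Set E)) →* Q), Function.Surjective π →
    π.ker = P.subgroupOf (K ⊓ Subgroup.normalizer (P : Set E)) →
    DadeInv p red (⊤ : Subgroup Q)

end

variable {p : ℕ} [Fact p.Prime] {F : Type} [Field F] (red : integralClosure ℤ ℂ →+* F)

theorem rad_kdU {E : Type} [Group E] [Finite E] (G : Subgroup E) [G.Normal] (B : (G → F) → F)
    (d : ℕ) (U : Subgroup (E ⧸ G)) :
    radSum p G (fun σ => (kdU p red G B d U σ : ℤ)) =
      invSum p G (fun σ => (kdU p red G B d U σ : ℤ)) :=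
  (Pool.Agent.N199.DIRADS.RADS Pool.Agent.N344.DI.RAD p E G _
    (fun g hg σ => by rw [((parts.kdu p F red E G B d).1 U σ g hg).1])
    (fun σ τ h => by rw [(Pool.Agent.N386.DI.KST p F red E G B d U σ τ h).1])).symm

theorem rad_kdGe {E : Type} [Group E] [Finite E] (G : Subgroup E) [G.Normal] (B : (G → F) → F)
    (d : ℕ) (U : Subgroup (E ⧸ G)) :
    radSum p G (fun σ => (kdGe p red G B d U σ : ℤ)) =
      invSum p G (fun σ => (kdGe p red G B d U σ : ℤ)) :=
  (Pool.Agent.N199.DIRADS.RADS Pool.Agent.N344.DI.RAD p E G _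
    (fun g hg σ => by rw [((parts.kdu p F red E G B d).1 U σ g hg).2])
    (fun σ τ h => by rw [(Pool.Agent.N386.DI.KST p F red E G B d U σ τ h).2])).symm

theorem dadeInv_iff {E : Type} [Group E] [Finite E] (G : Subgroup E) [G.Normal] :
    DadeInv p red G ↔ InvC p red G := by
  unfold DadeInv InvC
  refine imp_congr_right fun _ => forall_congr' fun B => imp_congr_right fun _ =>
    imp_congr_right fun _ => forall_congr' fun d => forall_congr' fun U => ?_
  rw [rad_kdU red G B d U]

variable [IsAlgClosed F] [CharP F p]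

theorem ordC_of {H : Type} [Group H] [Finite H] (h : DadeInv p red (⊤ : Subgroup H)) :
    OrdC p red H :=
  parts.ord p F red H ((dadeInv_iff red _).1 h)

theorem ordK_of {E : Type} [Group E] [Finite E] {G K : Subgroup E} (h : DadeLoc p red G K) :
    OrdK p red G K :=
  fun R hR hRp hGR Q _ _ π hπ hk => ordC_of red (h R hR hRp hGR Q π hπ hk)

/-- the equivalence -/
theorem main_iff :
    (∀ (E : Type) [Group E] [Finite E], DadeInv p red (⊤ : Subgroup E)) ↔
      ∀ (E : Type) [Group E] [Finite E] (G : Subgroup E) [G.Normal], IsCyclic (E ⧸ G) →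
        DadeInv p red G := by
  constructor
  · intro h E _ _ G _ hc
    rw [dadeInv_iff red]
    exact inv_cyclic red parts hc fun K _ => ordK_of red fun P _ _ _ Q _ _ _ _ _ => h Q
  · intro h E _ _
    refine h E ⊤ ?_
    have : Subsingleton (E ⧸ (⊤ : Subgroup E)) := QuotientGroup.subsingleton_quotient_top
    exact isCyclic_of_subsingleton

/-- a single group -/
theorem main_ge {E : Type} [Group E] [Finite E] {G : Subgroup E} [G.Normal]
    {U : Subgroup (E ⧸ G)} (hU : IsCyclic U)
    (h : ∀ V ≤ U, DadeLoc p red G (V.comap (QuotientGroup.mk' G))) {B : (G → F) → F}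
    (hB : IsBlock B) (hB0 : numDzBlock p red B = 0) (d : ℕ) :
    radSum p G (fun σ => (kdGe p red G B d U σ : ℤ)) = 0 := by
  rw [rad_kdGe red G B d U]
  exact ge_zero red parts hU (fun V hV => ordK_of red (h V hV)) hB hB0 d

/-- a single cyclic extension -/
theorem main_cyclic {E : Type} [Group E] [Finite E] {G : Subgroup E} [G.Normal]
    (hc : IsCyclic (E ⧸ G)) (h : ∀ K : Subgroup E, G ≤ K → DadeLoc p red G K) :
    DadeInv p red G := by
  rw [dadeInv_iff red]
  exact inv_cyclic red parts hc fun K hK => ordK_of red (h K hK)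

end Pool.Agent.N20.DI
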