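import Pool.Agent.N20.DI.MR

/-!
# Dade's invariant conjecture for cyclic quotients: cyclic extensions inside a group
-/

set_option autoImplicit false
set_option linter.unusedSectionVars false

open scoped Classical BigOperators

noncomputable section

namespace Pool.Agent.N20.DI

open Pool.Agent.Y63.NV
open Pool.Agent.Y63.KR
open Pool.Agent.Y63.AWC (IsIrreducibleCharacter)
open Pool.Agent.R674.Ce (chs wt Sp)
open Pool.Agent.R674.Tw (Fixes)
open Pool.Agent.N20.KB (irr_comp')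

/-- the order of the stabiliser of `ψ` in `M` -/
def sM {Γ : Type} [Group Γ] (M : Subgroup Γ) {N : Subgroup Γ} (ψ : N → ℂ) : ℕ :=
  Nat.card {m : Γ // m ∈ M ∧ Fixes m ψ}

section

variable {Γ : Type} [Group Γ] [Finite Γ] {M N : Subgroup Γ} {A : Type} [Group A]

/-- the kernel of `φ` as a subgroup of `Γ` -/
def kerE (hNM : N ≤ M) (φ : M →* A) (hφ : ∀ x : M, φ x = 1 ↔ (x : Γ) ∈ N) : φ.ker ≃* N where
  toFun x := ⟨x.1, (hφ x.1).1 x.2⟩
  invFun x := ⟨⟨x.1, hNM x.2⟩, (hφ ⟨x.1, hNM x.2⟩).2 x.2⟩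
  left_inv _ := rfl
  right_inv _ := rfl
  map_mul' _ _ := rfl

theorem sN_eq (hNM : N ≤ M) (φ : M →* A) (hφ : ∀ x : M, φ x = 1 ↔ (x : Γ) ∈ N) (ψ : N → ℂ) :
    sN φ.ker (fun x => ψ (kerE hNM φ hφ x)) = sM M ψ := by
  unfold sN sM
  refine Nat.card_congr
    { toFun := fun m => ⟨m.1, m.1.2, ?_⟩
      invFun := fun m => ⟨⟨m.1, m.2.1⟩, ?_⟩
      left_inv := fun m => rfl
      right_inv := fun m => rfl }
  · intro n n' h
    exact m.2 ((kerE hNM φ hφ).symm n) ((kerE hNM φ hφ).symm n') (Subtype.ext h)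
  · intro n n' h
    exact m.2.2 _ _ (congrArg Subtype.val h)

theorem cliff_amb (hCL : S_CLIFF) {p : ℕ} {F : Type} [Field F] (red : integralClosure ℤ ℂ →+* F)
    (hNM : N ≤ M) (hA : IsCyclic A) (φ : M →* A) (hφ : ∀ x : M, φ x = 1 ↔ (x : Γ) ∈ N) {z : Γ → F}
    (hz : ∀ g ∈ M, ∀ x, z (g * x * g⁻¹) = z x) (hz0 : ∀ x ∈ M, x ∉ N → z x = 0) (c : F) (D : ℕ) :
    Nat.card M * Nat.card N * Kd p red D (fun x : M => z x) c =
      ∑ᶠ ψ : {ψ : N → ℂ // IsIrreducibleCharacter ψ ∧ Dg p D (sM M ψ) ψ ∧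
        centralValue red ψ (fun n : N => z n) = c}, (sM M ψ.1) ^ 2 := by
  let e := kerE hNM φ hφ
  have hcy : IsCyclic (M ⧸ φ.ker) :=
    isCyclic_of_injective (QuotientGroup.kerLift φ) (QuotientGroup.kerLift_injective φ)
  have h1 := hCL p F red M φ.ker hcy (fun x : M => z x) (fun g x => hz g g.2 x)
    (fun x hx => hz0 x x.2 fun h => hx ((hφ x).2 h)) c D
  have h2 : Nat.card φ.ker = Nat.card N := Nat.card_congr e.toEquiv
  rw [h2] at h1
  rw [h1]
  have hcl : IsClassFun (fun n : N => z n) := fun g x => hz g (hNM g.2) x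
  have hcv : ∀ ψ : N → ℂ, IsIrreducibleCharacter ψ →
      centralValue red (fun x : φ.ker => ψ (e x)) (fun n : φ.ker => z (n : M)) =
        centralValue red ψ (fun n : N => z n) := by
    intro ψ hψ
    exact Pool.Agent.Y286.NV.centralValue_comp red e ψ (Pool.Agent.Y286.NV.irr_class hψ)
      (fun n : N => z n) hcl
  symm
  refine finsum_eq_of_bijective (fun ψ : {ψ : N → ℂ // IsIrreducibleCharacter ψ ∧
    Dg p D (sM M ψ) ψ ∧ centralValue red ψ (fun n : N => z n) = c} =>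
    (⟨fun x => ψ.1 (e x), irr_comp' e ψ.2.1, ?_, ?_⟩ :
      {ψ : φ.ker → ℂ // IsIrreducibleCharacter ψ ∧ Dg p D (sN φ.ker ψ) ψ ∧
        centralValue red ψ (fun n : φ.ker => z (n : M)) = c})) ⟨?_, ?_⟩ ?_
  · rw [dg_comp e, sN_eq hNM φ hφ]
    exact ψ.2.2.1
  · rw [hcv ψ.1 ψ.2.1]
    exact ψ.2.2.2
  · intro ψ ψ' h
    apply Subtype.ext
    funext x
    have h3 := congrFun (congrArg Subtype.val h) (e.symm x)
    change ψ.1 (e (e.symm x)) = ψ'.1 (e (e.symm x)) at h3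
    rw [e.apply_symm_apply] at h3
    exact h3
  · rintro ⟨ψ, h3, h4, h5⟩
    have h6 : (fun x => (fun y => ψ (e.symm y)) (e x)) = ψ := by
      funext x
      change ψ (e.symm (e x)) = ψ x
      rw [e.symm_apply_apply]
    have h7 : IsIrreducibleCharacter (fun y => ψ (e.symm y)) := irr_comp' e.symm h3
    refine ⟨⟨fun y => ψ (e.symm y), h7, ?_, ?_⟩, Subtype.ext h6⟩
    · rw [dg_comp e.symm, ← sN_eq hNM φ hφ (fun y => ψ (e.symm y))]
      rw [← h6] at h4
      rw [← dg_comp e.symm, ← dg_comp e]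
      exact h4
    · rw [← hcv _ h7]
      rw [← h6] at h5
      exact h5
  · intro ψ
    change _ = (sN φ.ker (fun x => ψ.1 (kerE hNM φ hφ x))) ^ 2
    rw [sN_eq hNM φ hφ]

end

end Pool.Agent.N20.DI
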