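import Pool.Agent.R674.Tw.Defs
import Pool.Agent.R674.Ce.CD
import Pool.Agent.Helper884.IC.Compl
import Pool.Agent.Y930.NV.Cen

/-!
# Characters of given defect: definitions
-/

set_option autoImplicit false

open scoped Classical

noncomputable section

namespace Pool.Agent.N20.DI

open Pool.Agent.Y63.NV
open Pool.Agent.Y63.KR
open Pool.Agent.Y63.AWC (IsIrreducibleCharacter)
open Pool.Agent.R674.Tw (Fixes)

/-- `χ(1)` is a natural number `n` with `v_p(n) + D = v_p(s)` -/
def Dg (p D s : ℕ) {J : Type} [Group J] (χ : J → ℂ) : Prop :=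
  ∃ n : ℕ, χ 1 = n ∧ n.factorization p + D = s.factorization p

/-- `χ` has `p`-defect `D`: the largest power of `p` dividing `|J| / χ(1)` is `p ^ D`. -/
def HasDef (p D : ℕ) {J : Type} [Group J] (χ : J → ℂ) : Prop := Dg p D (Nat.card J) χ

/-- the number of `χ ∈ Irr(J)` of defect `D` whose central character has the value `c` at `z` -/
def Kd (p : ℕ) {F : Type} [Field F] (red : integralClosure ℤ ℂ →+* F) (D : ℕ) {J : Type} [Group J]
    (z : J → F) (c : F) : ℕ :=
  Nat.card {χ : J → ℂ // IsIrreducibleCharacter χ ∧ HasDef p D χ ∧ centralValue red χ z = c}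

/-- the order of the stabiliser of `ψ` in the ambient group -/
def sN {M : Type} [Group M] (N : Subgroup M) (ψ : N → ℂ) : ℕ := Nat.card {m : M // Fixes m ψ}

/-- the ordinary conjecture of Dade for `H` (see the results file) -/
def OrdC (p : ℕ) {F : Type} [Field F] (red : integralClosure ℤ ℂ →+* F) (H : Type) [Group H] :
    Prop :=
  (∀ P : Subgroup H, P.Normal → IsPGroup p P → P = ⊥) →
  ∀ B : (H → F) → F, IsBlock B → numDzBlock p red B = 0 → ∀ d : ℕ,
    alternatingSum p H (fun J => (Nat.card {χ : J → ℂ // IsIrreducibleCharacter χ ∧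
      HasDef p d χ ∧ ∀ f : H → F, IsClassFun f → centralValue red χ (fun x => f x) = B f} : ℤ)) = 0

end Pool.Agent.N20.DI
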