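import Pool.Agent.N20.DI.Marks

/-!
# Dade's invariant conjecture for cyclic quotients: the main theorem
-/

set_option autoImplicit false
set_option linter.unusedSectionVars false

open scoped Classical BigOperators

noncomputable section

namespace Pool.Agent.N20.DI

open Pool.Agent.Y63.NV
open Pool.Agent.Y63.KR
open Pool.Agent.Y63.AWC (IsIrreducibleCharacter)
open Pool.Agent.R674.Tw (Fixes GCh NG NE NEbar ng_le ng_conj IndB invSum invSum_eq_zero gchSetoid)

/-- all parts -/
structure Parts : Prop where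
  cl : S_CLIFF
  comb : S_COMB
  ch : S_CH
  lin : S_LIN
  bl : S_BL
  dec : S_DEC
  inv1 : S_INV1
  inv2 : S_INV2
  dz0 : S_DZ0
  blk : S_BLK
  kdu : S_KDU
  ord : S_ORD

variable {p : ℕ} [Fact p.Prime] {F : Type} [Field F] [IsAlgClosed F] [CharP F p]
  (red : integralClosure ℤ ℂ →+* F)

/-- **the sums over the characters fixed by a cyclic group** -/
theorem ge_zero (hS : Parts) {E : Type} [Group E] [Finite E] {G : Subgroup E} [G.Normal]
    {U₀ : Subgroup (E ⧸ G)} (hU₀ : IsCyclic U₀)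
    (hOC : ∀ U ≤ U₀, OrdK p red G (U.comap (QuotientGroup.mk' G))) {B : (G → F) → F}
    (hB : IsBlock B) (hB0 : numDzBlock p red B = 0) (d : ℕ) :
    invSum p G (fun σ => (kdGe p red G B d U₀ σ : ℤ)) = 0 := by
  have _i : Fintype (GCh p G) := Fintype.ofFinite _
  rw [invSum_eq_zero G _ (fun g hg σ => by
    rw [((hS.kdu p F red E G B d).1 U₀ σ g hg).2])]
  rcases Nat.eq_zero_or_pos d with rfl | hd
  · refine Finset.sum_eq_zero fun σ _ => ?_
    have h0 : kdGe p red G B 0 U₀ σ.1 = 0 := by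
      unfold kdGe
      have : IsEmpty {χ : NG G σ.1 → ℂ // IsIrreducibleCharacter χ ∧ HasDef p 0 χ ∧
          U₀ ≤ NEbar G σ.1 χ ∧ IndB red G σ.1 χ B} :=
        ⟨fun χ => hS.dz0 p F red E G B hB0 σ.1 σ.2.1 σ.2.2 χ.1 χ.2.1 χ.2.2.1 χ.2.2.2.2⟩
      exact Nat.card_of_isEmpty
    rw [h0, Nat.cast_zero, mul_zero, mul_zero]
  · by_cases hI : InvBl G (U₀.comap (QuotientGroup.mk' G)) B
    · obtain ⟨hGK, -⟩ := comap_rel U₀
      obtain ⟨z, hz, hz0, hz1, hz2⟩ := hS.inv1 F E G _ hGK B hB hI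
      have h1 := marks red hS.cl hS.comb hS.ch hS.lin hS.bl hS.dec hU₀ hOC hz hz0 (1 : F) hd
      rw [← h1]
      refine Finset.sum_congr rfl fun σ _ => ?_
      congr 3
      unfold kdGe
      refine Nat.card_congr (Equiv.subtypeEquivRight fun χ => ?_)
      constructor
      · rintro ⟨h2, h3, h4, h5⟩
        refine ⟨h2, h3, h4, ?_⟩
        rw [← hz1]
        exact h5 (fun x : G => z x) (fun g x => hz g (hGK g.2) x)
      · rintro ⟨h2, h3, h4, h5⟩
        refine ⟨h2, h3, h4, ?_⟩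
        exact hz2 _ (hS.blk p F red E G σ.1 σ.2.1 σ.2.2 χ h2) h5
    · refine Finset.sum_eq_zero fun σ _ => ?_
      have h0 : kdGe p red G B d U₀ σ.1 = 0 := by
        unfold kdGe
        have : IsEmpty {χ : NG G σ.1 → ℂ // IsIrreducibleCharacter χ ∧ HasDef p d χ ∧
            U₀ ≤ NEbar G σ.1 χ ∧ IndB red G σ.1 χ B} :=
          ⟨fun χ => hI (hS.inv2 p F red E G U₀ B σ.1 χ.1 hB χ.2.1 χ.2.2.2.1 χ.2.2.2.2)⟩
        exact Nat.card_of_isEmpty
      rw [h0, Nat.cast_zero, mul_zero, mul_zero]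

/-- the invariant conjecture for a cyclic quotient -/
theorem inv_cyclic (hS : Parts) {E : Type} [Group E] [Finite E] {G : Subgroup E} [G.Normal]
    (hc : IsCyclic (E ⧸ G))
    (hOC : ∀ K : Subgroup E, G ≤ K → OrdK p red G K) : InvC p red G := by
  intro _ B hB hB0 d U
  refine (hS.kdu p F red E G B d).2 U fun V _ => ?_
  have hV : IsCyclic V := Subgroup.isCyclic V
  exact ge_zero red hS hV (fun W _ => hOC _ (comap_rel W).1) hB hB0 d

theorem equiv_conj (hS : Parts) :
    (∀ (H : Type) [Group H] [Finite H], OrdC p red H) ↔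
      ∀ (E : Type) [Group E] [Finite E] (G : Subgroup E) [G.Normal], IsCyclic (E ⧸ G) →
        InvC p red G := by
  constructor
  · intro h E _ _ G _ hc
    exact inv_cyclic red hS hc fun K _ R _ _ _ Q _ _ _ _ _ => h Q
  · intro h H _ _
    refine hS.ord p F red H (h H ⊤ ?_)
    have : Subsingleton (H ⧸ (⊤ : Subgroup H)) := QuotientGroup.subsingleton_quotient_top
    exact isCyclic_of_subsingleton

end Pool.Agent.N20.DI
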