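import Pool.Agent.N20.DI.Def

/-!
# Dade's invariant conjecture for cyclic quotients: definitions and statements, second part
-/

set_option autoImplicit false

open scoped Classical BigOperators

noncomputable section

namespace Pool.Agent.N20.DI

open Pool.Agent.Y63.NV
open Pool.Agent.Y63.KR
open Pool.Agent.Y63.AWC (IsIrreducibleCharacter)
open Pool.Agent.R674.Tw (Fixes GCh NG NE NEbar ng_le IndB invSum)

section

variable {F : Type} [Field F] {E : Type} [Group E]

/-- `k_C(B, d, U)`: the number of `ψ ∈ Irr(N_G(C))` of defect `d` with `b(ψ)^G = B` and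
`N_Ē(C, ψ) = U`. -/
def kdU (p : ℕ) (red : integralClosure ℤ ℂ →+* F) (G : Subgroup E) [G.Normal]
    (B : (G → F) → F) (d : ℕ) (U : Subgroup (E ⧸ G)) (σ : Set (Subgroup E)) : ℕ :=
  Nat.card {χ : NG G σ → ℂ // IsIrreducibleCharacter χ ∧ HasDef p d χ ∧ NEbar G σ χ = U ∧
    IndB red G σ χ B}

/-- The number of `ψ ∈ Irr(N_G(C))` of defect `d` with `b(ψ)^G = B` and `N_Ē(C, ψ) ≥ U`. -/
def kdGe (p : ℕ) (red : integralClosure ℤ ℂ →+* F) (G : Subgroup E) [G.Normal]
    (B : (G → F) → F) (d : ℕ) (U : Subgroup (E ⧸ G)) (σ : Set (Subgroup E)) : ℕ :=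
  Nat.card {χ : NG G σ → ℂ // IsIrreducibleCharacter χ ∧ HasDef p d χ ∧ U ≤ NEbar G σ χ ∧
    IndB red G σ χ B}

/-- Dade's invariant conjecture for the normal subgroup `G` of `E`. -/
def InvC (p : ℕ) (red : integralClosure ℤ ℂ →+* F) (G : Subgroup E) [G.Normal] : Prop :=
  (∀ P : Subgroup G, P.Normal → IsPGroup p P → P = ⊥) →
  ∀ B : (G → F) → F, IsBlock B → numDzBlock p red B = 0 →
    ∀ (d : ℕ) (U : Subgroup (E ⧸ G)), invSum p G (fun σ => (kdU p red G B d U σ : ℤ)) = 0

/-- the block `B` of `G` is invariant under `K` -/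
def InvBl (G K : Subgroup E) (B : (G → F) → F) : Prop :=
  ∀ g ∈ K, ∀ f f' : G → F, IsClassFun f → (∀ x y : G, (y : E) = g * x * g⁻¹ → f' y = f x) →
    B f' = B f

end

/-- INV1: an invariant class function separating an invariant block from the other blocks -/
def S_INV1 : Prop := ∀ (F : Type) [Field F] [IsAlgClosed F] (E : Type) [Group E] [Finite E]
    (G K : Subgroup E) [G.Normal], G ≤ K → ∀ B : (G → F) → F, IsBlock B → InvBl G K B →
    ∃ z : E → F, (∀ g ∈ K, ∀ x, z (g * x * g⁻¹) = z x) ∧ (∀ x, x ∉ G → z x = 0) ∧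
      B (fun x : G => z x) = 1 ∧
      ∀ B' : (G → F) → F, IsBlock B' → B' (fun x : G => z x) = 1 →
        ∀ f : G → F, IsClassFun f → B' f = B f

/-- INV2: the block induced by the block of an invariant character is invariant -/
def S_INV2 : Prop := ∀ (p : ℕ) [Fact p.Prime] (F : Type) [Field F] [IsAlgClosed F] [CharP F p]
    (red : integralClosure ℤ ℂ →+* F) (E : Type) [Group E] [Finite E] (G : Subgroup E) [G.Normal]
    (U : Subgroup (E ⧸ G)) (B : (G → F) → F) (σ : Set (Subgroup E)) (χ : NG G σ → ℂ),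
    IsBlock B → IsIrreducibleCharacter χ → U ≤ NEbar G σ χ → IndB red G σ χ B →
    InvBl G (U.comap (QuotientGroup.mk' G)) B

/-- DZ0: characters of defect zero -/
def S_DZ0 : Prop := ∀ (p : ℕ) [Fact p.Prime] (F : Type) [Field F] [IsAlgClosed F] [CharP F p]
    (red : integralClosure ℤ ℂ →+* F) (E : Type) [Group E] [Finite E] (G : Subgroup E) [G.Normal]
    (B : (G → F) → F), numDzBlock p red B = 0 → ∀ (σ : Set (Subgroup E)), IsPChain p σ →
    (∀ P ∈ σ, P ≤ G) → ∀ (χ : NG G σ → ℂ), IsIrreducibleCharacter χ → HasDef p 0 χ →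
    IndB red G σ χ B → False

/-- BLK: the characters of the stabilisers induce blocks -/
def S_BLK : Prop := ∀ (p : ℕ) [Fact p.Prime] (F : Type) [Field F] [IsAlgClosed F] [CharP F p]
    (red : integralClosure ℤ ℂ →+* F) (E : Type) [Group E] [Finite E] (G : Subgroup E) [G.Normal]
    (σ : Set (Subgroup E)), IsPChain p σ → (∀ P ∈ σ, P ≤ G) → ∀ (χ : NG G σ → ℂ),
    IsIrreducibleCharacter χ →
    IsBlock (fun f : G → F => centralValue red χ (fun x => f ⟨x, ng_le G σ x.2⟩))

/-- KDU: from `≥ U` to `= U`; invariance under conjugation -/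
def S_KDU : Prop := ∀ (p : ℕ) [Fact p.Prime] (F : Type) [Field F]
    (red : integralClosure ℤ ℂ →+* F) (E : Type) [Group E] [Finite E] (G : Subgroup E) [G.Normal]
    (B : (G → F) → F) (d : ℕ),
    (∀ (U : Subgroup (E ⧸ G)) (σ : Set (Subgroup E)), ∀ g ∈ G,
      kdU p red G B d U (conjSub g '' σ) = kdU p red G B d U σ ∧
      kdGe p red G B d U (conjSub g '' σ) = kdGe p red G B d U σ) ∧
    ∀ U : Subgroup (E ⧸ G), (∀ V : Subgroup (E ⧸ G), U ≤ V →
      invSum p G (fun σ => (kdGe p red G B d V σ : ℤ)) = 0) →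
      invSum p G (fun σ => (kdU p red G B d U σ : ℤ)) = 0

/-- ORD: the ordinary conjecture is the invariant conjecture for `G = E` -/
def S_ORD : Prop := ∀ (p : ℕ) [Fact p.Prime] (F : Type) [Field F] [IsAlgClosed F] [CharP F p]
    (red : integralClosure ℤ ℂ →+* F) (H : Type) [Group H] [Finite H],
    InvC p red (⊤ : Subgroup H) → OrdC p red H

end Pool.Agent.N20.DI
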