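import Pool.Agent.N20.DI.Om
import Pool.Agent.N20.DI.Stm2

/-!
# Dade's invariant conjecture for cyclic quotients: the marks
-/

set_option autoImplicit false
set_option linter.unusedSectionVars false

open scoped Classical BigOperators

noncomputable section

namespace Pool.Agent.N20.DI

open Pool.Agent.Y63.NV
open Pool.Agent.Y63.KR
open Pool.Agent.Y63.AWC (IsIrreducibleCharacter)
open Pool.Agent.R674.Ce (chs wt Sp)
open Pool.Agent.R674.Tw (Fixes GCh NG NE NEbar ng_le ng_conj IndB invSum)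
open Pool.Agent.N20.KB (irr_comp')

section

variable {Γ : Type} [Group Γ] [Finite Γ] {G : Subgroup Γ} [G.Normal]

theorem gch_chs {p : ℕ} (G : Subgroup Γ) (w : Set (Subgroup Γ) → ℤ) :
    chs (Sp p G) w = ∑ᶠ σ : GCh p G, w σ.1 := by
  unfold chs
  symm
  refine finsum_eq_of_bijective (fun σ : GCh p G =>
    (⟨σ.1, fun P hP => ⟨σ.2.1.isPGroup P hP, σ.2.1.ne_bot P hP, σ.2.2 P hP⟩, σ.2.1.chain⟩ :
      {σ : Set (Subgroup Γ) // σ ⊆ Sp p G ∧ IsChain (· ≤ ·) σ})) ⟨?_, ?_⟩ ?_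
  · intro σ τ h
    exact Subtype.ext (congrArg (fun t => t.1) h)
  · rintro ⟨τ, h1, h2⟩
    exact ⟨⟨τ, ⟨h2, fun P hP => (h1 hP).1, fun P hP => (h1 hP).2.1⟩,
      fun P hP => (h1 hP).2.2⟩, rfl⟩
  · intro σ
    rfl

theorem comap_rel (U : Subgroup (Γ ⧸ G)) :
    G ≤ U.comap (QuotientGroup.mk' G) ∧
      G.relIndex (U.comap (QuotientGroup.mk' G)) = Nat.card U := by
  have hGK : G ≤ U.comap (QuotientGroup.mk' G) := by
    intro x hx
    rw [Subgroup.mem_comap]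
    have : (QuotientGroup.mk' G) x = 1 := (QuotientGroup.eq_one_iff x).2 hx
    rw [this]
    exact U.one_mem
  refine ⟨hGK, ?_⟩
  let f : ↥(U.comap (QuotientGroup.mk' G)) →* Γ ⧸ G :=
    (QuotientGroup.mk' G).comp (U.comap (QuotientGroup.mk' G)).subtype
  have h1 : f.ker = G.subgroupOf (U.comap (QuotientGroup.mk' G)) := by
    ext x
    rw [MonoidHom.mem_ker, Subgroup.mem_subgroupOf]
    exact QuotientGroup.eq_one_iff (x : Γ)
  have h2 : f.range = U := by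
    ext y
    constructor
    · rintro ⟨x, rfl⟩
      exact x.2
    · intro hy
      obtain ⟨x, rfl⟩ := QuotientGroup.mk'_surjective G y
      exact ⟨⟨x, hy⟩, rfl⟩
  have h3 := Subgroup.index_ker f
  rw [h1, h2] at h3
  exact h3

theorem comap_com {U : Subgroup (Γ ⧸ G)} (hU : IsCyclic U) (a : Γ)
    (ha : a ∈ U.comap (QuotientGroup.mk' G)) (b : Γ) (hb : b ∈ U.comap (QuotientGroup.mk' G)) :
    a * b * a⁻¹ * b⁻¹ ∈ G := by
  have h1 : (⟨_, ha⟩ : U) * ⟨_, hb⟩ = ⟨_, hb⟩ * ⟨_, ha⟩ := (IsCyclic.isMulCommutative (α := U)).is_comm.comm _ _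
  have h2 : (QuotientGroup.mk' G) a * (QuotientGroup.mk' G) b =
    (QuotientGroup.mk' G) b * (QuotientGroup.mk' G) a := congrArg Subtype.val h1
  have h3 : (QuotientGroup.mk' G) (a * b * a⁻¹ * b⁻¹) = 1 := by
    rw [map_mul, map_mul, map_mul, h2, map_inv, map_inv]
    group
  exact (QuotientGroup.eq_one_iff _).1 h3

variable {p : ℕ} [Fact p.Prime] {F : Type} [Field F] [IsAlgClosed F] [CharP F p]
  (red : integralClosure ℤ ℂ →+* F)

/-- the pairs of a chain and a character -/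
abbrev Om (p : ℕ) {F : Type} [Field F] (red : integralClosure ℤ ℂ →+* F) {Γ : Type} [Group Γ]
    (G : Subgroup Γ) (z : Γ → F) (c : F) : Type :=
  Σ σ : GCh p G, {ψ : NG G σ.1 → ℂ // IsIrreducibleCharacter ψ ∧
    centralValue red ψ (fun n : NG G σ.1 => z n) = c}

theorem fin_irc (σ : Set (Subgroup Γ)) (z : Γ → F) (c : F) :
    Finite {ψ : NG G σ → ℂ // IsIrreducibleCharacter ψ ∧
      centralValue red ψ (fun n : NG G σ => z n) = c} := by
  have hX := Pool.Agent.Y171.NV.irr_fin (NG G σ)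
  exact Finite.of_injective (fun χ : {ψ : NG G σ → ℂ // IsIrreducibleCharacter ψ ∧
      centralValue red ψ (fun n : NG G σ => z n) = c} =>
    (⟨χ.1, χ.2.1⟩ : {χ : NG G σ → ℂ // IsIrreducibleCharacter χ}))
    (fun a b h => Subtype.ext (congrArg (fun t => t.1) h))

theorem fin_Om (z : Γ → F) (c : F) : Finite (Om p red G z c) := by
  have h := fun σ : GCh p G => fin_irc (G := G) red σ.1 z c
  infer_instance

/-- sums over the pairs -/
theorem sum_Om (z : Γ → F) (c : F) (f : Om p red G z c → ℤ) :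
    ∑ᶠ ω : Om p red G z c, f ω = ∑ᶠ σ : GCh p G, ∑ᶠ ψ : {ψ : NG G σ.1 → ℂ //
      IsIrreducibleCharacter ψ ∧ centralValue red ψ (fun n : NG G σ.1 => z n) = c}, f ⟨σ, ψ⟩ := by
  have h := fun σ : GCh p G => fin_irc (G := G) red σ.1 z c
  have _i1 : Fintype (GCh p G) := Fintype.ofFinite _
  have _i2 : ∀ σ : GCh p G, Fintype {ψ : NG G σ.1 → ℂ //
      IsIrreducibleCharacter ψ ∧ centralValue red ψ (fun n : NG G σ.1 => z n) = c} :=
    fun σ => Fintype.ofFinite _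
  rw [finsum_eq_sum_of_fintype, finsum_eq_sum_of_fintype]
  have e1 : ∀ σ : GCh p G, ∑ᶠ ψ : {ψ : NG G σ.1 → ℂ //
      IsIrreducibleCharacter ψ ∧ centralValue red ψ (fun n : NG G σ.1 => z n) = c}, f ⟨σ, ψ⟩ =
      ∑ ψ : {ψ : NG G σ.1 → ℂ // IsIrreducibleCharacter ψ ∧
        centralValue red ψ (fun n : NG G σ.1 => z n) = c}, f ⟨σ, ψ⟩ :=
    fun σ => finsum_eq_sum_of_fintype _
  rw [Finset.sum_congr rfl fun σ _ => e1 σ]
  exact Fintype.sum_sigma (fun ω : (Σ σ : GCh p G, {ψ : NG G σ.1 → ℂ //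
    IsIrreducibleCharacter ψ ∧ centralValue red ψ (fun n : NG G σ.1 => z n) = c}) => f ω)

/-- **the marks vanish** -/
theorem marks (hCL : S_CLIFF) (hCOMB : S_COMB) (hCH : S_CH) (hLIN : S_LIN) (hBL : S_BL)
    (hDEC : S_DEC) {U₀ : Subgroup (Γ ⧸ G)} (hU₀ : IsCyclic U₀)
    (hOC : ∀ U ≤ U₀, OrdK p red G (U.comap (QuotientGroup.mk' G))) {z : Γ → F}
    (hz : ∀ g ∈ U₀.comap (QuotientGroup.mk' G), ∀ x, z (g * x * g⁻¹) = z x)
    (hz0 : ∀ x, x ∉ G → z x = 0) (c : F) {e : ℕ} (he : 1 ≤ e) [Fintype (GCh p G)] :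
    ∑ σ : GCh p G, (-1) ^ σ.1.ncard * ((Nat.card (NG G σ.1) : ℤ) *
      Nat.card {χ : NG G σ.1 → ℂ // IsIrreducibleCharacter χ ∧ HasDef p e χ ∧
        U₀ ≤ NEbar G σ.1 χ ∧ centralValue red χ (fun n : NG G σ.1 => z n) = c}) = 0 := by
  have _i := fin_Om (p := p) (G := G) red z c
  have h := hCOMB (Om p red G z c) (Γ ⧸ G) p
    (fun ω => (-1) ^ ω.1.1.ncard * (Nat.card (NG G ω.1.1) : ℤ))
    (fun ω => df p ω.2.1) (fun ω => NEbar G ω.1.1 ω.2.1) U₀ hU₀ (by
      intro U hU D hD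
      rw [sum_Om]
      have hUc : IsCyclic U :=
        isCyclic_of_injective (Subgroup.inclusion hU) (Subgroup.inclusion_injective hU)
      obtain ⟨hGK, hrel⟩ := comap_rel U
      have hzU : ∀ g ∈ U.comap (QuotientGroup.mk' G), ∀ x, z (g * x * g⁻¹) = z x :=
        fun g hg x => hz g (hU hg) x
      have h1 := mr red hCH hLIN hBL hDEC hGK (fun a ha b hb => comap_com hUc a ha b hb)
        (hOC U hU) hzU hz0 c (D := D) (by rw [hrel]; exact hD)
      rw [gch_chs] at h1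
      refine Eq.trans ?_ h1
      refine finsum_congr fun σ => ?_
      unfold wt
      rw [rel_term red hCL U hUc σ.1 hzU hz0 c D, mul_finsum]
      refine finsum_congr fun ψ => ?_
      change (if df p ψ.1 + (Nat.card ↥(NEbar G σ.1 ψ.1 ⊓ U)).factorization p = D then
        ((-1) ^ σ.1.ncard * (Nat.card (NG G σ.1) : ℤ)) *
          (Nat.card ↥(NEbar G σ.1 ψ.1 ⊓ U) : ℤ) ^ 2 else 0) = _
      by_cases h2 : df p ψ.1 + (Nat.card ↥(NEbar G σ.1 ψ.1 ⊓ U)).factorization p = D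
      · rw [if_pos h2, if_pos h2]
        ring
      · rw [if_neg h2, if_neg h2, mul_zero]) e he
  rw [sum_Om, finsum_eq_sum_of_fintype] at h
  rw [← h]
  refine Finset.sum_congr rfl fun σ _ => ?_
  have hf := fin_irc (G := G) red σ.1 z c
  have _i2 : Fintype {ψ : NG G σ.1 → ℂ // IsIrreducibleCharacter ψ ∧
    centralValue red ψ (fun n : NG G σ.1 => z n) = c} := Fintype.ofFinite _
  rw [finsum_eq_sum_of_fintype]
  change _ = ∑ ψ : {ψ : NG G σ.1 → ℂ // IsIrreducibleCharacter ψ ∧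
    centralValue red ψ (fun n : NG G σ.1 => z n) = c},
    (if df p ψ.1 = e ∧ U₀ ≤ NEbar G σ.1 ψ.1 then
      (-1) ^ σ.1.ncard * (Nat.card (NG G σ.1) : ℤ) else 0)
  rw [← Finset.sum_filter, Finset.sum_const, nsmul_eq_mul]
  have h3 : Nat.card {χ : NG G σ.1 → ℂ // IsIrreducibleCharacter χ ∧ HasDef p e χ ∧
        U₀ ≤ NEbar G σ.1 χ ∧ centralValue red χ (fun n : NG G σ.1 => z n) = c} =
      (Finset.univ.filter fun ψ : {ψ : NG G σ.1 → ℂ // IsIrreducibleCharacter ψ ∧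
        centralValue red ψ (fun n : NG G σ.1 => z n) = c} =>
        df p ψ.1 = e ∧ U₀ ≤ NEbar G σ.1 ψ.1).card := by
    rw [← Fintype.card_subtype, ← Nat.card_eq_fintype_card]
    exact Nat.card_congr
      { toFun := fun χ => ⟨⟨χ.1, χ.2.1, χ.2.2.2.2⟩, (hasDef_iff χ.2.1).1 χ.2.2.1, χ.2.2.2.1⟩
        invFun := fun χ => ⟨χ.1.1, χ.1.2.1, (hasDef_iff χ.1.2.1).2 χ.2.1, χ.2.2, χ.1.2.2⟩
        left_inv := fun χ => rfl
        right_inv := fun χ => rfl }
  rw [h3]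
  ring

end

end Pool.Agent.N20.DI
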