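import Pool.Agent.N20.DI.Rel
import Pool.Agent.Y63.KR.Surf
import Pool.Agent.R674.Tw.Final

/-!
# Dade's invariant conjecture for cyclic quotients: the pairs of a chain and a character
-/

set_option autoImplicit false
set_option linter.unusedSectionVars false

open scoped Classical BigOperators

noncomputable section

namespace Pool.Agent.N20.DI

open Pool.Agent.Y63.NV
open Pool.Agent.Y63.KR
open Pool.Agent.Y63.AWC (IsIrreducibleCharacter)
open Pool.Agent.R674.Ce (chs wt Sp)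
open Pool.Agent.R674.Tw (Fixes GCh NG NE NEbar ng_le ng_conj)
open Pool.Agent.N20.KB (irr_comp')

/-- the defect -/
def df (p : ℕ) {J : Type} [Group J] (χ : J → ℂ) : ℕ :=
  (Nat.card J).factorization p - (dg χ).factorization p

theorem dg_le {p : ℕ} {J : Type} [Group J] [Finite J] {χ : J → ℂ} (h : IsIrreducibleCharacter χ) :
    (dg χ).factorization p ≤ (Nat.card J).factorization p := by
  have _i : Fintype J := Fintype.ofFinite J
  have h1 := cod_spec (chi := χ) h
  exact (Nat.factorization_le_iff_dvd (dg_spec (chi := χ) h).2.ne' Nat.card_pos.ne').2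
    ⟨_, h1.symm⟩ p

theorem Dg_iff {p D s : ℕ} {J : Type} [Group J] [Finite J] {χ : J → ℂ}
    (h : IsIrreducibleCharacter χ) :
    Dg p D s χ ↔ (dg χ).factorization p + D = s.factorization p := by
  have _i : Fintype J := Fintype.ofFinite J
  constructor
  · rintro ⟨n, hn, h1⟩
    have h2 := (dg_spec (chi := χ) h).1
    rw [hn] at h2
    have h3 : n = dg χ := by exact_mod_cast h2
    rw [← h3]
    exact h1
  · intro h1
    exact ⟨dg χ, (dg_spec (chi := χ) h).1, h1⟩

theorem hasDef_iff {p D : ℕ} {J : Type} [Group J] [Finite J] {χ : J → ℂ}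
    (h : IsIrreducibleCharacter χ) : HasDef p D χ ↔ df p χ = D := by
  unfold HasDef df
  rw [Dg_iff h]
  have := dg_le (p := p) h
  omega

/-- sums over subtypes -/
theorem fs_sub {α R : Type} [AddCommMonoid R] {P P' : α → Prop} (h : ∀ x, P' x → P x)
    (f : α → R) :
    ∑ᶠ x : {x // P' x}, f x = ∑ᶠ x : {x // P x}, if P' x.1 then f x else 0 := by
  have h1 : ∑ᶠ x : {x // P' x}, f x = ∑ᶠ x ∈ {x | P' x}, f x :=
    finsum_set_coe_eq_finsum_mem (s := {x | P' x})
  have h2 : (∑ᶠ x : {x // P x}, if P' x.1 then f x else 0) =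
      ∑ᶠ x ∈ {x | P x}, if P' x then f x else 0 :=
    finsum_set_coe_eq_finsum_mem (s := {x | P x}) (f := fun x => if P' x then f x else 0)
  rw [h1, h2, finsum_mem_def, finsum_mem_def]
  refine finsum_congr fun x => ?_
  by_cases hx : P' x
  · rw [Set.indicator_of_mem (s := {x | P' x}) hx, Set.indicator_of_mem (s := {x | P x}) (h x hx),
      if_pos hx]
  · rw [Set.indicator_of_notMem (s := {x | P' x}) hx]
    by_cases hx2 : P x
    · rw [Set.indicator_of_mem (s := {x | P x}) hx2, if_neg hx]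
    · rw [Set.indicator_of_notMem (s := {x | P x}) hx2]

section

variable {Γ : Type} [Group Γ] [Finite Γ] {G : Subgroup Γ} [G.Normal]

/-- the stabiliser in `M` -/
theorem sM_eq (U : Subgroup (Γ ⧸ G)) (σ : Set (Subgroup Γ)) {ψ : NG G σ → ℂ}
    (hψ : IsClassFun ψ) :
    sM (U.comap (QuotientGroup.mk' G) ⊓ chainStabilizer σ) ψ =
      Nat.card (NG G σ) * Nat.card ↥(NEbar G σ ψ ⊓ U) := by
  set K := U.comap (QuotientGroup.mk' G) with hK
  set L : Subgroup Γ := NE G σ ψ ⊓ K with hL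
  have h1 : sM (K ⊓ chainStabilizer σ) ψ = Nat.card L := by
    unfold sM
    refine Nat.card_congr (Equiv.subtypeEquivRight fun m => ?_)
    rw [hL, Subgroup.mem_inf, Subgroup.mem_inf]
    constructor
    · rintro ⟨⟨a, b⟩, c⟩
      exact ⟨⟨b, c⟩, a⟩
    · rintro ⟨⟨b, c⟩, a⟩
      exact ⟨⟨a, b⟩, c⟩
  have hNL : NG G σ ≤ L := by
    intro x hx
    refine Subgroup.mem_inf.2 ⟨⟨(Subgroup.mem_inf.1 hx).2, ?_⟩, ?_⟩
    · intro n n' h
      have h2 : n' = (⟨x, hx⟩ : NG G σ) * n * (⟨x, hx⟩ : NG G σ)⁻¹ := Subtype.ext h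
      rw [h2]
      exact hψ _ _
    · rw [hK, Subgroup.mem_comap]
      have : (QuotientGroup.mk' G) x = 1 :=
        (QuotientGroup.eq_one_iff x).2 (Subgroup.mem_inf.1 hx).1
      rw [this]
      exact U.one_mem
  let f : L →* Γ ⧸ G := (QuotientGroup.mk' G).comp L.subtype
  have hker : Nat.card f.ker = Nat.card (NG G σ) := by
    refine Nat.card_congr
      { toFun := fun x => ⟨x.1.1, Subgroup.mem_inf.2 ⟨(QuotientGroup.eq_one_iff _).1 x.2,
          (Subgroup.mem_inf.1 x.1.2).1.1⟩⟩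
        invFun := fun x => ⟨⟨x.1, hNL x.2⟩,
          (QuotientGroup.eq_one_iff (x : Γ)).2 (Subgroup.mem_inf.1 x.2).1⟩
        left_inv := fun x => rfl
        right_inv := fun x => rfl }
  have hran : f.range = NEbar G σ ψ ⊓ U := by
    ext y
    rw [Subgroup.mem_inf]
    constructor
    · rintro ⟨x, rfl⟩
      obtain ⟨h2, h3⟩ := Subgroup.mem_inf.1 x.2
      exact ⟨⟨x.1, h2, rfl⟩, h3⟩
    · rintro ⟨⟨x, hx, rfl⟩, h3⟩
      exact ⟨⟨x, Subgroup.mem_inf.2 ⟨hx, h3⟩⟩, rfl⟩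
  have h2 := f.ker.card_mul_index
  rw [Subgroup.index_ker, hker, hran] at h2
  rw [h1, ← h2]

variable {p : ℕ} [Fact p.Prime] {F : Type} [Field F] (red : integralClosure ℤ ℂ →+* F)

/-- one chain -/
theorem rel_term (hCL : S_CLIFF) (U : Subgroup (Γ ⧸ G)) (hU : IsCyclic U) (σ : Set (Subgroup Γ))
    {z : Γ → F} (hz : ∀ g ∈ U.comap (QuotientGroup.mk' G), ∀ x, z (g * x * g⁻¹) = z x)
    (hz0 : ∀ x, x ∉ G → z x = 0) (c : F) (D : ℕ) :
    fw p red D z c (U.comap (QuotientGroup.mk' G) ⊓ chainStabilizer σ) =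
      ∑ᶠ ψ : {ψ : NG G σ → ℂ // IsIrreducibleCharacter ψ ∧
        centralValue red ψ (fun n : NG G σ => z n) = c},
        (if df p ψ.1 + (Nat.card ↥(NEbar G σ ψ.1 ⊓ U)).factorization p = D then
          (Nat.card (NG G σ) : ℤ) * (Nat.card ↥(NEbar G σ ψ.1 ⊓ U) : ℤ) ^ 2 else 0) := by
  set K := U.comap (QuotientGroup.mk' G) with hK
  have hGK : G ≤ K := by
    intro x hx
    rw [hK, Subgroup.mem_comap]
    have : (QuotientGroup.mk' G) x = 1 := (QuotientGroup.eq_one_iff x).2 hx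
    rw [this]
    exact U.one_mem
  have hNM : NG G σ ≤ K ⊓ chainStabilizer σ := inf_le_inf_right _ hGK
  let φ : ↥(K ⊓ chainStabilizer σ) →* U :=
    { toFun := fun x => ⟨(QuotientGroup.mk' G) x.1, (Subgroup.mem_inf.1 x.2).1⟩
      map_one' := Subtype.ext (map_one _)
      map_mul' := fun a b => Subtype.ext (map_mul _ _ _) }
  have hφ : ∀ x : ↥(K ⊓ chainStabilizer σ), φ x = 1 ↔ (x : Γ) ∈ NG G σ := by
    intro x
    constructor
    · intro h
      exact Subgroup.mem_inf.2 ⟨(QuotientGroup.eq_one_iff (x : Γ)).1 (congrArg Subtype.val h),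
        (Subgroup.mem_inf.1 x.2).2⟩
    · intro h
      exact Subtype.ext ((QuotientGroup.eq_one_iff (x : Γ)).2 (Subgroup.mem_inf.1 h).1)
  have h1 := cliff_amb hCL (p := p) red hNM hU φ hφ (z := z)
    (fun g hg => hz g (Subgroup.mem_inf.1 hg).1)
    (fun x hx hx2 => hz0 x fun h => hx2 (Subgroup.mem_inf.2 ⟨h, (Subgroup.mem_inf.1 hx).2⟩)) c D
  have hfin : Finite {ψ : NG G σ → ℂ // IsIrreducibleCharacter ψ ∧
        centralValue red ψ (fun n : NG G σ => z n) = c} := by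
    have hX := Pool.Agent.Y171.NV.irr_fin (NG G σ)
    exact Finite.of_injective (fun χ : {ψ : NG G σ → ℂ // IsIrreducibleCharacter ψ ∧
        centralValue red ψ (fun n : NG G σ => z n) = c} =>
      (⟨χ.1, χ.2.1⟩ : {χ : NG G σ → ℂ // IsIrreducibleCharacter χ}))
      (fun a b h => Subtype.ext (congrArg (fun t => t.1) h))
  have hpos : (Nat.card (NG G σ) : ℤ) ≠ 0 := by exact_mod_cast Nat.card_pos.ne'
  apply mul_left_cancel₀ hpos
  have h2 : (Nat.card (NG G σ) : ℤ) * fw p red D z c (K ⊓ chainStabilizer σ) =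
      ((Nat.card ↥(K ⊓ chainStabilizer σ) * Nat.card (NG G σ) *
        Kd p red D (fun x : ↥(K ⊓ chainStabilizer σ) => z x) c : ℕ) : ℤ) := by
    unfold fw
    push_cast
    ring
  rw [h2, h1, mul_finsum]
  rw [fs_sub (P := fun ψ : NG G σ → ℂ => IsIrreducibleCharacter ψ ∧
    centralValue red ψ (fun n : NG G σ => z n) = c) (fun ψ h => ⟨h.1, h.2.2⟩)
    (fun ψ => (sM (K ⊓ chainStabilizer σ) ψ) ^ 2)]
  have _i : Fintype {ψ : NG G σ → ℂ // IsIrreducibleCharacter ψ ∧
        centralValue red ψ (fun n : NG G σ => z n) = c} := Fintype.ofFinite _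
  rw [finsum_eq_sum_of_fintype, finsum_eq_sum_of_fintype, Nat.cast_sum]
  refine Finset.sum_congr rfl fun ψ _ => ?_
  obtain ⟨ψ, hψ, hc⟩ := ψ
  have h3 := sM_eq U σ (ψ := ψ) (by
    have _i2 : Fintype (NG G σ) := Fintype.ofFinite _
    exact Pool.Agent.Y930.NV.irr_Cf hψ)
  rw [← hK] at h3
  have hpT : 0 < Nat.card ↥(NEbar G σ ψ ⊓ U) := Nat.card_pos
  have hpN : 0 < Nat.card (NG G σ) := Nat.card_pos
  have h4 : (IsIrreducibleCharacter ψ ∧ Dg p D (sM (K ⊓ chainStabilizer σ) ψ) ψ ∧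
      centralValue red ψ (fun n : NG G σ => z n) = c) ↔
      df p ψ + (Nat.card ↥(NEbar G σ ψ ⊓ U)).factorization p = D := by
    rw [Dg_iff hψ, h3, Nat.factorization_mul hpN.ne' hpT.ne', Finsupp.add_apply]
    have h5 := dg_le (p := p) hψ
    unfold df
    constructor
    · rintro ⟨_, h6, _⟩
      omega
    · intro h6
      exact ⟨hψ, by omega, hc⟩
  change ((@ite ℕ (IsIrreducibleCharacter ψ ∧ Dg p D (sM (K ⊓ chainStabilizer σ) ψ) ψ ∧
      centralValue red ψ (fun n : NG G σ => z n) = c) (Classical.propDecidable _)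
        ((sM (K ⊓ chainStabilizer σ) ψ) ^ 2) 0 : ℕ) : ℤ) = (Nat.card (NG G σ) : ℤ) *
      (if df p ψ + (Nat.card ↥(NEbar G σ ψ ⊓ U)).factorization p = D then
          (Nat.card (NG G σ) : ℤ) * (Nat.card ↥(NEbar G σ ψ ⊓ U) : ℤ) ^ 2 else 0)
  by_cases h6 : df p ψ + (Nat.card ↥(NEbar G σ ψ ⊓ U)).factorization p = D
  · rw [if_pos h6, if_pos (h4.2 h6), h3]
    push_cast
    ring
  · rw [if_neg h6, if_neg (fun h => h6 (h4.1 h)), mul_zero, Nat.cast_zero]

end

end Pool.Agent.N20.DI
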