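import Pool.Agent.N20.DI.Amb

/-!
# Dade's invariant conjecture for cyclic quotients: the relation for one subgroup
-/

set_option autoImplicit false
set_option linter.unusedSectionVars false

open scoped Classical BigOperators

noncomputable section

namespace Pool.Agent.N20.DI

open Pool.Agent.Y63.NV
open Pool.Agent.Y63.KR
open Pool.Agent.Y63.AWC (IsIrreducibleCharacter)
open Pool.Agent.R674.Ce (chs wt Sp)
open Pool.Agent.R674.Tw (Fixes)
open Pool.Agent.N20.KB (irr_comp')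

variable {p : ℕ} [Fact p.Prime] {F : Type} [Field F] [IsAlgClosed F] [CharP F p]
  (red : integralClosure ℤ ℂ →+* F)

/-- the ordinary conjecture for the groups `N_K(R)/R` -/
def OrdK (p : ℕ) {F : Type} [Field F] (red : integralClosure ℤ ℂ →+* F) {Γ : Type} [Group Γ]
    (G K : Subgroup Γ) : Prop :=
  ∀ R : Subgroup Γ, R ≤ K → IsPGroup p R → G ⊓ R = ⊥ → ∀ (Q : Type) [Group Q] [Finite Q]
    (π : ↥(K ⊓ Subgroup.normalizer (R : Set Γ)) →* Q), Function.Surjective π →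
    π.ker = R.subgroupOf (K ⊓ Subgroup.normalizer (R : Set Γ)) → OrdC p red Q

variable {Γ : Type} [Group Γ] [Finite Γ] {G : Subgroup Γ} [G.Normal] {K : Subgroup Γ}

theorem xr (hCH : S_CH) (hLIN : S_LIN) (hBL : S_BL)
    (hcom : ∀ a ∈ K, ∀ b ∈ K, a * b * a⁻¹ * b⁻¹ ∈ G) (hOC : OrdK p red G K) {z : Γ → F}
    (hz : ∀ g ∈ K, ∀ x, z (g * x * g⁻¹) = z x) (hz0 : ∀ x, x ∉ G → z x = 0) (c : F) {D : ℕ}
    {R : Subgroup Γ} (hRK : R ≤ K) (hRp : IsPGroup p R) (hGR : G ⊓ R = ⊥)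
    (hD : (Nat.card R).factorization p + 1 ≤ D) :
    chs {P : Subgroup Γ | IsPGroup p P ∧ R < P ∧ P ≤ K ⊓ Subgroup.normalizer (R : Set Γ)}
      (wt (K ⊓ Subgroup.normalizer (R : Set Γ)) (fw p red D z c)) = 0 := by
  obtain ⟨m, hm⟩ := IsPGroup.iff_card.1 hRp
  have hRN : R ≤ K ⊓ Subgroup.normalizer (R : Set Γ) := le_inf hRK Subgroup.le_normalizer
  have hfac : (Nat.card R).factorization p = m := by
    rw [hm, (Fact.out : p.Prime).factorization_pow, Finsupp.single_eq_same]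
  obtain ⟨D', rfl⟩ : ∃ D', D = D' + m := ⟨D - m, by omega⟩
  set N := K ⊓ Subgroup.normalizer (R : Set Γ) with hN
  have hnorm : (R.subgroupOf N).Normal := by
    constructor
    intro x hx g
    rw [Subgroup.mem_subgroupOf] at hx ⊢
    have h1 : (g : Γ) ∈ Subgroup.normalizer (R : Set Γ) := (Subgroup.mem_inf.1 g.2).2
    exact (Subgroup.mem_normalizer_iff.1 h1 x).1 hx
  have hQ : OrdC p red (N ⧸ R.subgroupOf N) :=
    hOC R hRK hRp hGR _ (QuotientGroup.mk' _) (QuotientGroup.mk'_surjective _)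
      (QuotientGroup.ker_mk' _)
  exact mr_R red hCH hLIN hBL hRp hRN hGR
    (fun a ha b hb => hcom a (Subgroup.mem_inf.1 ha).1 b (Subgroup.mem_inf.1 hb).1) inf_le_right hm
    (QuotientGroup.mk' (R.subgroupOf N)) (QuotientGroup.mk'_surjective _)
    (QuotientGroup.ker_mk' _) hQ (fun g hg => hz g (Subgroup.mem_inf.1 hg).1) hz0 c (by omega)

/-- **the main relation** -/
theorem mr (hCH : S_CH) (hLIN : S_LIN) (hBL : S_BL) (hDEC : S_DEC) (hGK : G ≤ K)
    (hcom : ∀ a ∈ K, ∀ b ∈ K, a * b * a⁻¹ * b⁻¹ ∈ G) (hOC : OrdK p red G K) {z : Γ → F}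
    (hz : ∀ g ∈ K, ∀ x, z (g * x * g⁻¹) = z x) (hz0 : ∀ x, x ∉ G → z x = 0) (c : F) {D : ℕ}
    (hD : (G.relIndex K).factorization p + 1 ≤ D) :
    chs (Sp p G) (wt K (fw p red D z c)) = 0 := by
  have hR : ∀ R : Subgroup Γ, R ≤ K → G ⊓ R = ⊥ → (Nat.card R).factorization p + 1 ≤ D := by
    intro R hRK hGR
    have h1 := Subgroup.relIndex_mul_relIndex G (G ⊔ R) K le_sup_left (sup_le hGK hRK)
    rw [Pool.Agent.R674.Ce.relIndex_card hGR] at h1
    have h2 : G.relIndex K ≠ 0 := (G.subgroupOf K).index_ne_zero_of_finite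
    have h3 : (Nat.card R).factorization p ≤ (G.relIndex K).factorization p :=
      (Nat.factorization_le_iff_dvd Nat.card_pos.ne' h2).2 ⟨_, h1.symm⟩ p
    omega
  have h := hDEC p Γ G K hGK hcom (fw p red D z c)
  have h1 : chs (Sp p K) (wt K (fw p red D z c)) = 0 := by
    have h2 := xr red hCH hLIN hBL hcom hOC hz hz0 c (R := ⊥) bot_le IsPGroup.of_bot
      (inf_bot_eq _) (hR ⊥ bot_le (inf_bot_eq _))
    have h3 : K ⊓ Subgroup.normalizer ((⊥ : Subgroup Γ) : Set Γ) = K := by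
      rw [Subgroup.normalizer_eq_top, inf_top_eq]
    rw [h3] at h2
    have h4 : {P : Subgroup Γ | IsPGroup p P ∧ ⊥ < P ∧ P ≤ K} = Sp p K := by
      ext P
      constructor
      · rintro ⟨a, b, c⟩
        exact ⟨a, b.ne', c⟩
      · rintro ⟨a, b, c⟩
        exact ⟨a, bot_lt_iff_ne_bot.2 b, c⟩
    rw [h4] at h2
    exact h2
  have h2 : (∑ᶠ R : Subgroup Γ, if IsPGroup p R ∧ R ≠ ⊥ ∧ R ≤ K ∧ G ⊓ R = ⊥ then
        chs {P : Subgroup Γ | IsPGroup p P ∧ R < P ∧ P ≤ K ⊓ Subgroup.normalizer (R : Set Γ)}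
          (wt (K ⊓ Subgroup.normalizer (R : Set Γ)) (fw p red D z c)) else 0) = 0 := by
    refine (finsum_congr fun R => ?_).trans (finsum_zero (α := Subgroup Γ))
    by_cases h3 : IsPGroup p R ∧ R ≠ ⊥ ∧ R ≤ K ∧ G ⊓ R = ⊥
    · rw [if_pos h3]
      exact xr red hCH hLIN hBL hcom hOC hz hz0 c h3.2.2.1 h3.1 h3.2.2.2
        (hR R h3.2.2.1 h3.2.2.2)
    · rw [if_neg h3]
  rw [h1, h2, sub_zero] at h
  exact h.symm

end Pool.Agent.N20.DI
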